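import Pool.Agent.Lib.VD.All

open MeasureTheory

namespace Pool.Agent.Results.MP_ad3614_gt.LowerBound

/-- An origin-symmetric convex body: compact, convex, with nonempty interior, `K = -K`. -/
def IsSymBody {n : ℕ} (K : Set (EuclideanSpace ℝ (Fin n))) : Prop :=
  IsCompact K ∧ Convex ℝ K ∧ (interior K).Nonempty ∧ K = -K

/-- The volume difference inequality holds in `ℝ^n`, for sections of codimension `k`, with the
constant `γ`: for all origin-symmetric convex bodies `L ⊆ K` and every upper bound `M` of the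
differences `|K ∩ F| - |L ∩ F|` over the `(n-k)`-dimensional linear subspaces `F`,
`|K|^((n-k)/n) - |L|^((n-k)/n) ≤ γ^k M`. -/
def VolDiff (n k : ℕ) (γ : ℝ) : Prop :=
  ∀ K L : Set (EuclideanSpace ℝ (Fin n)), IsSymBody K → IsSymBody L → L ⊆ K → ∀ M : ℝ,
    (∀ F : Submodule ℝ (EuclideanSpace ℝ (Fin n)), Module.finrank ℝ F = n - k →
      (μHE[n - k] (K ∩ F)).toReal - (μHE[n - k] (L ∩ F)).toReal ≤ M) →
    (volume K).toReal ^ (((n : ℝ) - k) / n) - (volume L).toReal ^ (((n : ℝ) - k) / n) ≤ γ ^ k * M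

theorem result :
    ∃ c : ℝ, 0 < c ∧ ∀ (n k : ℕ) (γ : ℝ), 1 ≤ k → k < n → 0 < γ → VolDiff n k γ →
      c * √((n : ℝ) / k) ≤ γ :=
  Pool.Agent.Lib.VD.lower

end Pool.Agent.Results.MP_ad3614_gt.LowerBound
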