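import Pool.Agent.Lib.VD.UpAny

open MeasureTheory

namespace Pool.Agent.Results.MP_ad3614_gt.UpperBound

/-- An origin-symmetric convex body: compact, convex, with nonempty interior, `K = -K`. -/
def IsSymBody {n : ℕ} (K : Set (EuclideanSpace ℝ (Fin n))) : Prop :=
  IsCompact K ∧ Convex ℝ K ∧ (interior K).Nonempty ∧ K = -K

theorem result :
    ∃ C : ℝ, 0 < C ∧ ∀ n k : ℕ, 1 ≤ k → k < n →
      ∀ K L : Set (EuclideanSpace ℝ (Fin n)), IsSymBody K → MeasurableSet L → L ⊆ K → ∀ M : ℝ,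
        (∀ F : Submodule ℝ (EuclideanSpace ℝ (Fin n)), Module.finrank ℝ F = n - k →
          (μHE[n - k] (K ∩ F)).toReal - (μHE[n - k] (L ∩ F)).toReal ≤ M) →
        (volume K).toReal ^ (((n : ℝ) - k) / n) - (volume L).toReal ^ (((n : ℝ) - k) / n) ≤
          (C * √((n : ℝ) / k)) ^ k * M :=
  Pool.Agent.Lib.VD.upper_any

end Pool.Agent.Results.MP_ad3614_gt.UpperBound
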